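import Pool.Agent.U738.KV.QParts

/-!
# The Künneth conjecture, uniformly in `ℓ`, and the class in the Grothendieck group of varieties

Let `k` be algebraically closed, let `𝒱` be a class of smooth proper varieties over `k` closed under
products and let `𝒲` be a set of Weil cohomology theories on `𝒱` (for example all `ℓ`-adic ones) such
that for every cycle `z` of codimension `dim X` on `X × X`, `X` in `𝒱`, and every `j` the traces of `z` on
`H^j(X)` for all theories in `𝒲` are one rational number (`TracesAgree`; for the `ℓ`-adic theories this
is a theorem of Katz and Messing). Let `W` be ONE theory in `𝒲`, with coefficients in `K`, with the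
following property `IsMotivicS W`: for all varieties `V` and all sets `S` of degrees the dimensions
`resRank` and `onlyRank` of the space of the restrictions to `⊕_{j ∈ S} H^j(V)` of the algebraic maps
`H(V) → H(Z)`, and of the space of the algebraic maps `H(V) → H(Z)` which vanish on `H^j(V)` for `j ∉ S`,
extend to additive invariants of all schemes `Z` over `k`, which vanish on the schemes of dimension `m` if
`2 m < i` for all `i ∈ S`. (Both spaces are additive functors of the Chow motive of `Z`, so this is known:
Gillet-Soulé, Guillén-Navarro Aznar, Bondarko.) Then:

1. For every degree `i`: ONE RATIONAL cycle induces the projectors onto `H^i(X)` for ALL theories in `𝒲`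
   if and only if the class `[X]` in `K₀(Var_k)` lies in the subgroup generated by the classes `[Y]` of the
   varieties with such a cycle and the classes of all schemes of dimension less than `i / 2`.
2. There are such cycles for all `i` (`KunnethQ`) if and only if `[X]` lies in the subgroup generated by
   the `[Y]` which have such cycles for all `i > n = dim X` and the classes of all schemes of dimension at
   most `n / 2`.
3. If `X` and `X'` have the same dimension `n` and are isomorphic outside closed subsets of dimension at
   most `m`, then `KunnethQ` for `X` and for `X'` are equivalent, if `2 m ≤ n`, or if the classes of all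
   schemes of dimension at most `m` lie in the subgroup of 2. The latter is known if `2 m ≤ n + 2` and
   resolution of singularities is known in dimension at most `m`, so in characteristic zero and for `m ≤ 3`.
   For `m = n - 1`: the Künneth conjecture for all `ℓ` together is invariant under birational maps for
   `n ≤ 4`.
4. If the classes of the schemes of dimension at most `2` are generated by varieties with the Künneth
   conjecture (known: curves and surfaces) and `X` has an open subscheme `U` with complement of dimension
   at most `m`, `m` as in 3, which is built (by products, isomorphisms, and two out of three for a closed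
   subscheme and its open complement) from schemes of dimension at most `2`, varieties with the
   conjecture, affine schemes of any dimension given by polynomials with at most two terms over
   `k`-algebras of dimension at most `2`, and affine schemes with a grading of complexity at most `2`, then
   the conjecture holds for `X`.

The version with coefficients in `K` for one arbitrary Weil cohomology theory is
`MP_a60482_ag.ClassesKunneth`; the descent from combinations for one theory to one rational cycle for all
theories is the library theorem `TH133.PW.oneProjector_of_span`.
-/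

set_option autoImplicit false

open CategoryTheory AlgebraicGeometry Pool.Agent.Y116.UV

universe v

namespace Pool.Agent.Results.MP_4ca46c_ag.ClassesAllPrimes

open Pool.Agent.H914 Pool.Agent.H914.VarClass Pool.Agent.H914.VarClass.Obj
  Pool.Agent.H914.WeilCohomology Pool.Agent.U738.KV

/-- **The Künneth conjecture for all `ℓ` and the class in `K₀(Var_k)`.** -/
theorem result {k : Type} [Field k] [IsAlgClosed k] {𝒱 : VarClass k} {ops : CycleOps 𝒱}
    (𝒲 : Set (WeilCohomology.{0, v} ops)) (hT : ∀ X : 𝒱.Obj, TracesAgree 𝒲 X)
    (W : WeilCohomology.{0, v} ops) (hW : W ∈ 𝒲) (hM : IsMotivicS W) :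
    -- one component
    (∀ (X : 𝒱.Obj) (i : ℕ), OneProj 𝒲 X i ↔
      ClassIn ({c | ∃ Y : 𝒱.Obj, OneProj 𝒲 Y i ∧ c = sch Y} ∪ smallSet k i)
        (sch X)) ∧
    -- all components
    (∀ X : 𝒱.Obj, KunnethQ 𝒲 X ↔ InGenQ 𝒲 X.dim (sch X)) ∧
    (∀ n m : ℕ, 2 * m ≤ n → CoveredQ 𝒲 n m) ∧
    -- varieties which are isomorphic outside small closed subsets
    (∀ (X X' : 𝒱.Obj) (m : ℕ), X.dim = X'.dim → CoveredQ 𝒲 X.dim m →
      ∀ (Z Z' U U' : Sch k) (i : Z ⟶ sch X) (j : U ⟶ sch X) (i' : Z' ⟶ sch X')
        (j' : U' ⟶ sch X'), IsTriple i j → IsTriple i' j' → Nonempty (U ≅ U') →
      topologicalKrullDim Z.left ≤ m → topologicalKrullDim Z'.left ≤ m →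
      (KunnethQ 𝒲 X ↔ KunnethQ 𝒲 X')) ∧
    -- varieties which are built from pieces, up to a small closed subset
    ((∀ Z : Sch k, FT True Z → topologicalKrullDim Z.left ≤ 2 → ClassIn (kunSetQ 𝒲) Z) →
      ∀ (X : 𝒱.Obj) (m : ℕ), CoveredQ 𝒲 X.dim m →
      ∀ (Z U : Sch k) (i : Z ⟶ sch X) (j : U ⟶ sch X), IsTriple i j →
      topologicalKrullDim Z.left ≤ m → Built (kunSetQ 𝒲) U → KunnethQ 𝒲 X) :=
  ⟨partQ_one hT hW hM, partQ_class hT hW hM, partQ_covered hT hW, partQ_open hT hW hM,
    partQ_built hT hW hM⟩

end Pool.Agent.Results.MP_4ca46c_ag.ClassesAllPrimes
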