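import Pool.Agent.H447R3.KuB
import Pool.Agent.X310.Cen

/-!
# The Künneth components and intersection numbers on `X × X`

Let `W` be a Weil cohomology theory with coefficients in a field of characteristic zero, `X` a smooth
proper variety of dimension `n` over a field of any characteristic. All cycles have rational
coefficients and codimension `n` on `X × X`; `z · ᵗb` is the intersection number of `z` with the
transpose of `b`; `b_j` is the `j`-th Betti number.

**Theorem 1 (the conjecture `C` may be checked modulo numerical equivalence).** All Künneth components
`π_i` of the diagonal are algebraic if and only if there are cycles `z_i` on `X × X` with the same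
intersection numbers with all cycles as `π_i` and such that `z_i ∘ z_j` is numerically equivalent
to `z_i` for `i = j` and to `0` for `i ≠ j`. Nothing is known about the difference of homological and
numerical equivalence, which is open in all characteristics; in particular the ideal of the
correspondences numerically equivalent to zero is not known to be nilpotent here.

**Theorem 2 (two equalities of numbers).** The Künneth components of `X` are all algebraic if and only if
there are cycles `w` and `c` such that for all `b`

`w · ᵗb = ∑_j Tr(b | H^j)`,  `c · ᵗb = ∑_j (-1)^j (j - n) Tr(b | H^j)`

and `w · ᵗ(w ∘ w) = ∑_j b_j` and `w · ᵗ(c ∘ c) = ∑_j (j - n)² b_j`. Moreover for ALL cycles `w` and `c` that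
represent these linear forms one has `w · ᵗ(w ∘ w) ≥ ∑_j b_j`; and if equality holds, then
`w · ᵗ(c ∘ c) ≤ ∑_j (j - n)² b_j`, with equality if and only if all `π_i` are algebraic. So the answer
can be read off from two intersection numbers of ANY pair of representing cycles, which are unique
up to numerical equivalence.

**Theorem 3 (one component).** Suppose that the sum `π_0 + π_2 + ... + π_(2n)` is algebraic (this is known
for example over finite fields, and it is implied by the first equality in Theorem 2). If a cycle
`z` has the same intersection numbers with all cycles as `π_i`, then `(-1)^i z · ᵗz ≤ b_i`, with
equality if and only if `π_i` is algebraic.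

Proof of Theorem 2. The linear forms determine the traces of all powers of `w` and `c` on `H(X)`. By
Newton's identities each eigenvalue `λ` of `w` is not zero and is equal to `(a + b) / (a - b)`, where
`a` and `b` are its multiplicities on the even and on the odd cohomology. So `|λ| ≥ 1`, and the trace of
`w ∘ w` on `H(X)`, which is `w · ᵗ(w ∘ w)`, is at least `dim H(X)`, with equality if and only if `w` is
`1` on the even and `-1` on the odd cohomology, up to nilpotent operators; then the projectors to the
even and odd cohomology are polynomials in `w`. In this case each eigenvalue of `c` is the mean value
of `j - n` on its generalised eigenspace; so the trace of `c ∘ c` is at most that of the operator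
`j - n`, the difference being a sum of variances, with equality if and only if the `H^j(X)` are the
generalised eigenspaces of `c`. Then the `π_i` are polynomials in `c` with rational coefficients. Theorem
3 is proved like the second part, and Theorem 1 with the same identities for the traces.

The theorem is assembled from the files `H447R3/KuB` (Theorem 1) and `X310/Cen` (Theorems 2 and 3) of
the starting library, whose theorems had not been handed in. Compare
`MP_a60482_ag.WeightMoment`, where a different decomposition of the diagonal is used.
-/

set_option autoImplicit false

universe u v

namespace Pool.Agent.Results.MP_4ca46c_ag.KunnethNumerical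

open Pool.Agent.H914 Pool.Agent.H914.VarClass Pool.Agent.H914.VarClass.Obj
  Pool.Agent.H914.WeilCohomology Pool.Agent.H447 Pool.Agent.X310

/-- **The Künneth components and intersection numbers.** -/
theorem result {k : Type u} [Field k] {𝒱 : VarClass k} {ops : CycleOps 𝒱}
    (W : WeilCohomology.{u, v} ops) (X : 𝒱.Obj) :
    (KunnethStd W X ↔ KunnethNum W X) ∧
    ((KunnethStd W X ↔ ∃ w c, RepresentsTrace W X w ∧ RepresentsWeight W X c ∧
        interT ops X w (compCyc ops w w) = totalBetti W X ∧
        interT ops X w (compCyc ops c c) = totalWeight W X) ∧
      ∀ w c, RepresentsTrace W X w → RepresentsWeight W X c →
        totalBetti W X ≤ interT ops X w (compCyc ops w w) ∧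
        (interT ops X w (compCyc ops w w) = totalBetti W X →
          interT ops X w (compCyc ops c c) ≤ totalWeight W X ∧
            (interT ops X w (compCyc ops c c) = totalWeight W X ↔ KunnethStd W X))) ∧
    (SignStd W X → ∀ (i : ℕ) (z : (X.prod X).Cycles), RepresentsProjector W X i z →
      (-1) ^ i * interT ops X z z ≤ (W.betti X i : ℚ) ∧
        ((-1) ^ i * interT ops X z z = (W.betti X i : ℚ) ↔ KunnethAt W X i)) :=
  ⟨kunneth_iff_num, kunneth_main, fun hS _ _ hz => projector_criterion hS hz⟩

end Pool.Agent.Results.MP_4ca46c_ag.KunnethNumerical
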