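import Pool.Agent.U360.SF.Main

/-!
# One failure of the conjectures B or C for `X` spreads to all products `X × X × Z`

Let `W` be a Weil cohomology theory with coefficients in a field `K` of characteristic zero, `X` a
variety of dimension `n` with a divisor `D` with hard Lefschetz, `ξ` its class, and `i < n`. The
degrees `i` and `2 n - i` of `X` carry three operators on `H(X)`: the projectors `π^i` and
`π^(2n-i)` onto `H^i(X)` and `H^(2n-i)(X)` (the Künneth components of the diagonal), and the inverse
`θ^i : H^(2n-i)(X) → H^i(X)` of `ξ ^ (n - i)` (extended by zero). The conjectures B and C for `X` say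
that they are given by rational cycles on `X × X` for all `i < n`.

**Theorem.** Suppose that for one `i` one of the three operators `θ^i`, `π^i`, `π^(2n-i)` is not given
by a rational cycle on `X × X`. Let `Z` be ANY variety (with a divisor with hard Lefschetz and
`H(Z) ≠ 0`), `T = X × X × Z`, and let `j` be ANY integer with `i ≤ j`, `i + j < 2 n` and
`2 j < dim T`. Then the conjecture A (for every divisor on `T`) and the conjecture D fail for the
cycles of dimension `j` on `T`; and the span in `H(T)` of the classes of the cycles of dimension `j`
has at least

`N = min (n - i, n + dim Z - j) + 1 - max (n - j, j + 1 - n) ≥ 1`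

dimensions more than the span of the classes of the cycles of codimension `j`.

So for the algebraicity of `π^0, ..., π^i, π^(2n-i), ..., π^(2n)` and of `θ^0, ..., θ^i` it suffices
that on ONE product `X × X × Z` numerical and homological equivalence agree for the cycles of ONE
dimension `j`; for `Z` a point and `j < n` this is: if a cycle of dimension `j` on `X × X` which is
numerically equivalent to zero is homologically equivalent to zero, then the Künneth components
`π^i` and `π^(2n-i)` are classes of rational cycles for all `i ≤ j`.

Proof. Let `R^d` be the `K`-span of the operators on `H(X)` given by the cycles of codimension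
`n + d` on `X × X`; `R^d` consists of operators of degree `2 d`, and `R^d R^e ⊆ R^(d+e)`.
Multiplication `L` by `ξ` is in `R^1`. By the representation theory of `sl_2` the operator
`(y ↦ L y + y L) ^ (2 d)` is injective on the operators of degree `-2 d`, so it is injective from
`R^(-d)` to `R^d`, and `dim R^(-d) ≤ dim R^d`.

(1) Let `1 ≤ r` and `dim R^(-r) = dim R^r`, so that `(y ↦ L y + y L) ^ (2 r)` maps `R^(-r)` onto `R^r`.
A string operator of degree `2 d` is an operator which sends `L ^ j a` to `c L ^ (j + d) a` for all
primitive classes `a` of degree `m ≤ n`, with scalars `c` which depend on `m` and `j` only. Let `Y` be the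
space of the string operators in `R^(-r)`, and `T₀` the space of the string operators in `R^0`. Then
`y ↦ y L ^ r` is injective from `Y` to `T₀`, and `Y L ^ r` meets the kernel `N₀` of `t ↦ L ^ r t` on `T₀`
only in `0`. The elements of `L ^ r T₀` are string operators in `R^r`; their preimages in `R^(-r)` are
string operators too. Hence `dim T₀ - dim N₀ ≤ dim Y`, and so `T₀ = N₀ ⊕ Y L ^ r`. In particular
`1 = v + y L ^ r` with `L ^ r v = 0`, that is, `L ^ r y L ^ r = L ^ r` with a string operator `y` in
`R^(-r)`; this forces `y = Λ ^ r`, where `Λ` sends `L ^ j a` to `L ^ (j - 1) a`. So `Λ ^ r ∈ R^(-r)`, and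
`Λ ^ (s + 1) = Λ ^ r L ^ (r - 1) Λ ^ s` gives `Λ ^ s ∈ R^(-s)` for all `s ≥ r`. (File `U360/SF/Core`.)

(2) If `Λ ^ s ∈ R^(-s)` for all `s ≥ r`, then for `i ≤ n - r` the operators `θ^i`, `π^i`, `π^(2n-i)` are
given by RATIONAL cycles, by induction on `i`: there is a `K`-combination of rational cycles of
codimension `i` on `X × X` whose operator `H^(2n-i)(X) → H^i(X)` is bijective, hence also a rational
cycle; with the projectors onto the degrees outside of `[i, 2 n - i]`, which are rational by
induction, it is cut down to an operator supported in degree `2 n - i`, and it is inverted by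
Cayley-Hamilton; the characteristic polynomial is rational, since the traces of the powers are
intersection numbers up to sign. (File `U360/SF/Desc`.)

(3) Let `ρ_Y(q)` be the dimension of the span of the classes of the cycles of codimension `q` on `Y`, and
`T = Y × Z` with `Y = X × X`. The components `p_(1*)(y · E ^ l)`, `0 ≤ l ≤ dim Z`, map the span in
codimension `dim T - j` on `T` onto a space of dimension `∑_l ρ_Y(dim T - j - l)`, and they map the image
of the span in codimension `j` under the Lefschetz operator of `T`, which is injective, into a space of
dimension at most `∑_l ρ_Y(j - l)`. So `ρ_T(dim T - j) - ρ_T(j)` is at least the difference of the two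
sums. With `ρ(d) = ρ_Y(n + d) = dim R^d` it is the sum of `ρ(d) - ρ(-d) ≥ 0` over
`max (n - j, j + 1 - n) ≤ d ≤ n + dim Z - j`; by (1) and (2) the terms with `1 ≤ d ≤ n - i` are `≥ 1` if
one of `θ^i`, `π^i`, `π^(2n-i)` is not algebraic. (Files `U360/SF/Geo`, `Num`, `Main`.)

(4) The conjecture A in codimension `j`, for any divisor on `T`, or the conjecture D for cycles of
dimension `j`, each gives `ρ_T(dim T - j) ≤ ρ_T(j)`, a contradiction.

The second part of the theorem says that if B or C fails for `X`, then an `i < n` as above exists; then the
first part applies in particular to `j = n - 1` and, if `dim Z ≥ 1`, to `j = n`, for EVERY `Z`.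

Known before: Kleiman (A for `X × X` in all codimensions implies B for `X`); in the starting library,
A in the single codimension `n - 1` on `X × X`, or D in the single codimension `n + 1`, implies B(X)
(`H447R3/AoC`, `H447R3/DegB`). The case of an arbitrary codimension and of an arbitrary third factor
`Z`, the connection between the dimension of the cycles and the outer degrees, and the gap `N` of the
ranks are new, and so is the operator argument (1).
-/

set_option autoImplicit false

universe u v

namespace Pool.Agent.Results.MP_4ca46c_ag.SpreadOfFailure

open Pool.Agent.H914 Pool.Agent.H914.VarClass Pool.Agent.H914.VarClass.Obj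
  Pool.Agent.H914.WeilCohomology Pool.Agent.H447 Pool.Agent.W534 Pool.Agent.U360.SF

/-- **One failure in the degrees `i`, `2 n - i` of `X` spreads to all products `X × X × Z`.** -/
theorem result {k : Type u} [Field k] {𝒱 : VarClass k} {ops : CycleOps 𝒱}
    (W : WeilCohomology.{u, v} ops) (X : 𝒱.Obj) (D : X.Cycles) (hD : X.IsCyc 1 D)
    (hHL : HardLefschetz W X D) :
    (∀ i, ¬ OuterAlgebraic W X D i → ∀ Z, HasLefschetz W Z → FailureSpreads W X Z i) ∧
    (¬ (LefschetzB W X D ∧ KunnethStd W X) → ∃ i < X.dim, ¬ OuterAlgebraic W X D i) :=
  ⟨fun _ hfail _ hZ => failureSpreads hD hHL hZ hfail, spread_BC hD hHL⟩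

end Pool.Agent.Results.MP_4ca46c_ag.SpreadOfFailure
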